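import Pool.Agent.Helper94.UP.Sheet

/-! UP: the row SL. -/

open scoped ZeroAtInfty ContDiff NNReal
open Set Filter Topology MeasureTheory

namespace Pool.Agent.Helper94.UP

open Pool.Agent.Helper94.UF Pool.Agent.Helper94.SR

theorem stSL.{u, v} : ST_SL.{u, v} := by
  intro k X _ _ Γ K q R δ hδ hR hq hlip
  classical
  have hα : (0 : ℝ) < δ / 16 := by positivity
  have hL := K.L0
  refine ⟨fun x y => ?_, fun x => ?_⟩
  · set G : Finset Γ := Gx K hδ x ∪ Gx K hδ y with hG
    rw [sm_eq K hδ hq (x := x) (G := G) Finset.subset_union_left,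
      sm_eq K hδ hq (x := y) (G := G) Finset.subset_union_right,
      ← integral_sub (hq.integrable (K.isC0 x) _ G) (hq.integrable (K.isC0 y) _ G)]
    have h := norm_integral_le_of_norm_le_const (μ := nu Γ (δ / 16) hα)
      (f := fun z => q (ph (K.Φ x) (δ / 16) G z) - q (ph (K.Φ y) (δ / 16) G z))
      (C := R * (K.L * ‖x - y‖)) (ae_of_all _ fun z => by
        rw [Real.norm_eq_abs]
        refine hlip _ _ (isC0_ph (K.isC0 x) _ G z) (isC0_ph (K.isC0 y) _ G z) _
          (by positivity) fun γ => ?_
        have e : ph (K.Φ x) (δ / 16) G z γ - ph (K.Φ y) (δ / 16) G z γ =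
            K.Φ x γ - K.Φ y γ := by
          unfold ph; ring
        rw [e]
        exact K.upper x y γ)
    simpa using h
  · have h := norm_integral_le_of_norm_le_const (μ := nu Γ (δ / 16) hα)
      (f := fun z => q (ph (K.Φ x) (δ / 16) (Gx K hδ x) z) - q (K.Φ x))
      (C := R * (δ / 16)) (ae_of_all _ fun z => by
        rw [Real.norm_eq_abs]
        exact hlip _ _ (isC0_ph (K.isC0 x) _ _ z) (K.isC0 x) _ hα.le
          fun γ => ph_sub_le hα _ z γ)
    rw [integral_sub (hq.integrable (K.isC0 x) _ _) (integrable_const _), integral_const] at h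
    simpa [sm] using h

theorem st_SL.{u, v} : ST_SL.{u, v} := stSL

end Pool.Agent.Helper94.UP
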